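import Pool.Agent.Helper42.CV.Defs
import Pool.Agent.Helper20.CV.DlogNe
import Pool.Agent.Helper21.TS.Line

/-!
# CV: the relations between logarithmic differentials come from multiplicative relations (block C4)
-/

set_option autoImplicit false

namespace Pool.Agent.CV

open Module

universe u

private theorem exists_max71 {q : ℕ} (P : Finset (Fin q) → Prop) (h0 : P ∅) : ∃ B, P B ∧ ∀ i, i ∉ B → ¬ P (insert i B) := by
  classical
  obtain ⟨B, hB, hmax⟩ := Finset.exists_max_image (Finset.univ.filter P) Finset.card ⟨∅, by simpa using h0⟩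
  rw [Finset.mem_filter] at hB
  refine ⟨B, hB.2, fun i hi hP => ?_⟩
  have h := hmax (insert i B) (by rw [Finset.mem_filter]; exact ⟨Finset.mem_univ _, hP⟩)
  rw [Finset.card_insert_of_notMem hi] at h
  omega

/-- if the `z i`, `i` in `B`, have no multiplicative relation modulo the constants, then their logarithmic differentials are
linearly independent over the constants -/
private theorem nul_zero71 {M R : Type u} [Field M] [CharZero M] [Field R] [Algebra M R]
    (hAC : ∀ x : R, IsAlgebraic M x → ∃ c, algebraMap M R c = x)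
    (hfg : ∃ s : Finset R, IntermediateField.adjoin M (s : Set R) = ⊤) {q : ℕ} (z : Fin q → R) (hz : ∀ i, z i ≠ 0)
    (B : Finset (Fin q))
    (hB : ∀ a : Fin q → ℤ, (∀ i, i ∉ B → a i = 0) → (∃ τ : M, ∏ i, z i ^ a i = algebraMap M R τ) → a = 0)
    (α : Fin q → M) (hα : α ∈ Nul M z) (hs : ∀ i, i ∉ B → α i = 0) : α = 0 := by
  classical
  by_contra hne
  obtain ⟨i₀, hi₀⟩ := Function.ne_iff.1 hne
  let W : Submodule ℚ M := Submodule.span ℚ (Set.range α)
  have hmem : ∀ i, α i ∈ W := fun i => Submodule.subset_span ⟨i, rfl⟩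
  haveI hfd : FiniteDimensional ℚ W := FiniteDimensional.span_of_finite ℚ (Set.finite_range α)
  haveI hnt : Nontrivial W := ⟨⟨⟨α i₀, hmem i₀⟩, 0, fun h => hi₀ (congrArg Subtype.val h)⟩⟩
  obtain ⟨g, hg⟩ : ∃ g, finrank ℚ W = g + 1 := ⟨_, (Nat.succ_pred_eq_of_pos finrank_pos).symm⟩
  let e : Basis (Fin (g + 1)) ℚ W := finBasisOfFinrankEq ℚ W hg
  let r : Fin q → Fin (g + 1) → ℚ := fun i j => e.repr ⟨α i, hmem i⟩ j
  have hr : ∀ i, α i = ∑ j, r i j • (e j : M) := by
    intro i
    have h := congrArg Subtype.val (e.sum_repr ⟨α i, hmem i⟩)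
    refine h.symm.trans ?_
    rw [AddSubmonoidClass.coe_finset_sum]
    rfl
  obtain ⟨b, hb⟩ := IsLocalization.exist_integer_multiples_of_finite (nonZeroDivisors ℤ)
    (fun p : Fin q × Fin (g + 1) => r p.1 p.2)
  choose n hn using hb
  have hb0 : (b : ℤ) ≠ 0 := nonZeroDivisors.coe_ne_zero b
  have hn' : ∀ i j, ((n (i, j) : ℤ) : ℚ) = (b : ℤ) * r i j := by
    intro i j
    have h := hn (i, j)
    rw [zsmul_eq_mul] at h
    exact h
  have hnα : ∀ i, ∑ j, (n (i, j) : M) * (e j : M) = ((b : ℤ) : M) * α i := by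
    intro i
    conv_rhs => rw [hr i]
    rw [Finset.mul_sum]
    refine Finset.sum_congr rfl fun j _ => ?_
    have h1 : ((n (i, j) : ℤ) : M) = (((b : ℤ) * r i j : ℚ) : M) := by
      rw [← hn' i j]
      push_cast
      rfl
    rw [h1, Rat.smul_def]
    push_cast
    ring
  let w : Fin (g + 1) → R := fun j => ∏ i, z i ^ n (i, j)
  have hw : ∀ j, w j ≠ 0 := fun j => Finset.prod_ne_zero_iff.2 fun i _ => zpow_ne_zero _ (hz i)
  have hsum : ∀ D : Derivation M R R, ∑ j, algebraMap M R (e j : M) * (D (w j) / w j) = 0 := by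
    intro D
    have h1 : ∀ j, D (w j) / w j = ∑ i, (n (i, j) : R) * (D (z i) / z i) := by
      intro j
      have h := Pool.Agent.Helper21.TS.log_der (k₀ := M) Finset.univ D z hz (fun i => n (i, j))
      rw [div_eq_iff (hw j), mul_comm]
      exact h
    have h2 : ∑ j, algebraMap M R (e j : M) * (D (w j) / w j) =
        ∑ i, algebraMap M R (((b : ℤ) : M) * α i) * (D (z i) / z i) := by
      simp only [h1, Finset.mul_sum]
      rw [Finset.sum_comm]
      refine Finset.sum_congr rfl fun i _ => ?_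
      rw [← hnα i, map_sum, Finset.sum_mul]
      refine Finset.sum_congr rfl fun j _ => ?_
      rw [map_mul, map_intCast]
      ring
    rw [h2]
    have h3 := hα D
    have h4 : ∑ i, algebraMap M R (((b : ℤ) : M) * α i) * (D (z i) / z i) =
        ((b : ℤ) : R) * ∑ i, algebraMap M R (α i) * (D (z i) / z i) := by
      rw [Finset.mul_sum]
      refine Finset.sum_congr rfl fun i _ => ?_
      rw [map_mul, map_intCast]
      ring
    rw [h4, h3, mul_zero]
  obtain ⟨j₀, hj₀⟩ : ∃ j, r i₀ j ≠ 0 := by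
    by_contra hcon
    push Not at hcon
    refine hi₀ ?_
    rw [hr i₀]
    simp [hcon]
  have hnot : ¬ ∃ c, algebraMap M R c = w j₀ := by
    rintro ⟨c, hc⟩
    have h := hB (fun i => n (i, j₀)) (fun i hi => ?_) ⟨c, hc.symm⟩
    · have h1 := congrFun h i₀
      have h2 := hn' i₀ j₀
      simp only [Pi.zero_apply] at h1
      rw [h1] at h2
      have h3 : ((b : ℤ) : ℚ) * r i₀ j₀ ≠ 0 := mul_ne_zero (by exact_mod_cast hb0) hj₀
      exact h3 (by rw [← h2]; simp)
    · have h1 : r i j₀ = 0 := by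
        have h2 : (⟨α i, hmem i⟩ : W) = 0 := Subtype.ext (hs i hi)
        simp only [r]
        rw [h2]
        simp
      have h3 := hn' i j₀
      rw [h1, mul_zero] at h3
      exact_mod_cast h3
  have hli : LinearIndependent ℚ fun j => ((e (Equiv.swap 0 j₀ j) : W) : M) := by
    have h1 : LinearIndependent ℚ fun j => ((e j : W) : M) :=
      e.linearIndependent.map' W.subtype (Submodule.ker_subtype W)
    exact h1.comp _ (Equiv.swap 0 j₀).injective
  obtain ⟨D, hD⟩ := dlog_ne hAC hfg (fun j => ((e (Equiv.swap 0 j₀ j) : W) : M)) hli (fun j => w (Equiv.swap 0 j₀ j))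
    (fun j => hw _) (by rw [Equiv.swap_apply_left]; exact hnot)
  refine hD ?_
  rw [← hsum D]
  exact Equiv.sum_comp (Equiv.swap 0 j₀) fun j => algebraMap M R (e j : M) * (D (w j) / w j)

theorem rat {M R : Type u} [Field M] [CharZero M] [Field R] [Algebra M R] (hAC : ∀ x : R, IsAlgebraic M x → ∃ c, algebraMap M R c = x)
    (hfg : ∃ s : Finset R, IntermediateField.adjoin M (s : Set R) = ⊤) {q : ℕ} (z : Fin q → R) (hz : ∀ i, z i ≠ 0) :
    ∃ a : Fin (finrank M (Nul M z)) → Fin q → ℤ, LinearIndependent ℤ a ∧ ∀ s, ∃ τ : M, ∏ i, z i ^ a s i = algebraMap M R τ := by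
  classical
  obtain ⟨B, hB, hmax⟩ := exists_max71 (fun B : Finset (Fin q) => ∀ a : Fin q → ℤ, (∀ i, i ∉ B → a i = 0) →
    (∃ τ : M, ∏ i, z i ^ a i = algebraMap M R τ) → a = 0)
    (fun a h _ => funext fun i => h i (Finset.notMem_empty i))
  have hrel : ∀ i, i ∉ B → ∃ a : Fin q → ℤ, (∀ l, l ∉ insert i B → a l = 0) ∧
      (∃ τ : M, ∏ i, z i ^ a i = algebraMap M R τ) ∧ a i ≠ 0 := by
    intro i hi
    have h := hmax i hi
    push Not at h
    obtain ⟨a, h1, h2, h3⟩ := h
    refine ⟨a, h1, h2, fun h4 => h3 (hB a (fun l hl => ?_) h2)⟩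
    by_cases hli : l = i
    · rw [hli, h4]
    · exact h1 l (by simp [hli, hl])
  choose! a ha1 ha2 ha3 using hrel
  have hle : finrank M (Nul M z) ≤ Fintype.card {i // i ∉ B} := by
    let L : Nul M z →ₗ[M] ({i // i ∉ B} → M) :=
      { toFun := fun α c => α.1 c.1
        map_add' := fun α β => rfl
        map_smul' := fun c α => rfl }
    have hL : Function.Injective L := by
      rw [← LinearMap.ker_eq_bot, LinearMap.ker_eq_bot']
      intro α hα
      exact Subtype.ext (nul_zero71 hAC hfg z hz B hB α.1 α.2 fun i hi => congrFun hα ⟨i, hi⟩)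
    have h := LinearMap.finrank_le_finrank_of_injective hL
    rwa [finrank_fintype_fun_eq_card] at h
  obtain ⟨f⟩ : Nonempty (Fin (finrank M (Nul M z)) ↪ {i // i ∉ B}) :=
    Function.Embedding.nonempty_of_card_le (by rwa [Fintype.card_fin])
  refine ⟨fun s => a (f s).1, ?_, fun s => ha2 _ (f s).2⟩
  rw [Fintype.linearIndependent_iff]
  intro g hg s
  have h := congrFun hg (f s).1
  simp only [Finset.sum_apply, Pi.smul_apply, smul_eq_mul, Pi.zero_apply] at h
  rw [Finset.sum_eq_single s] at h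
  · exact (mul_eq_zero.1 h).resolve_right (ha3 _ (f s).2)
  · intro t _ hts
    rw [ha1 (f t).1 (f t).2 (f s).1 (by
      rw [Finset.mem_insert, not_or]
      exact ⟨fun h => hts (f.injective (Subtype.ext h.symm)), (f s).2⟩), mul_zero]
  · intro h1
    exact absurd (Finset.mem_univ s) h1

end Pool.Agent.CV
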